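import Pool.Agent.H51.EI.TargetsA

/-! Row FIN of exi_modules (MP_58ae59_nt), adapted from row FIN of ee_modules. -/

set_option autoImplicit false

open Polynomial Finset

namespace Pool.Agent.H69.EI.FIN

open Pool.Agent.H51.EI
open Pool.Agent.H25.EE (GG VJ thr phi bN bH)

private theorem sum_filter (F : Multiset (Multiset ℂ × ℝ)) (p : ℂ → Prop) [DecidablePred p]
    (f : ℂ → ℝ) :
    (((F.map Prod.fst).sum.filter p).map f).sum =
      (F.map fun R => ((R.1.filter p).map f).sum).sum := by
  induction F using Multiset.induction_on with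
  | empty => simp
  | cons R F ih =>
    rw [Multiset.map_cons, Multiset.sum_cons, Multiset.filter_add, Multiset.map_add,
      Multiset.sum_add, ih, Multiset.map_cons, Multiset.sum_cons]

private theorem sum_card (F : Multiset (Multiset ℂ × ℝ)) :
    (F.map fun R => (Multiset.card R.1 : ℝ)).sum = (Multiset.card (F.map Prod.fst).sum : ℝ) := by
  induction F using Multiset.induction_on with
  | empty => simp
  | cons R F ih =>
    rw [Multiset.map_cons, Multiset.sum_cons, ih, Multiset.map_cons, Multiset.sum_cons,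
      Multiset.card_add]
    push_cast
    ring

private theorem mem_sum (F : Multiset (Multiset ℂ × ℝ)) {R : Multiset ℂ × ℝ} (hR : R ∈ F) {x : ℂ}
    (hx : x ∈ R.1) : x ∈ (F.map Prod.fst).sum := by
  induction F using Multiset.induction_on with
  | empty => simp at hR
  | cons S F ih =>
    rw [Multiset.map_cons, Multiset.sum_cons, Multiset.mem_add]
    rcases Multiset.mem_cons.1 hR with rfl | h
    · exact Or.inl hx
    · exact Or.inr (ih h)

private theorem sum_le (F : Multiset (Multiset ℂ × ℝ)) (c A B : ℝ) (Φ : Multiset ℂ × ℝ → ℝ)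
    (h : ∀ R ∈ F, c * Φ R ≤ 101 / 100 * (A * R.2 + B * (Multiset.card R.1 : ℝ))) :
    c * (F.map Φ).sum ≤
      101 / 100 * (A * (F.map Prod.snd).sum +
        B * (F.map fun R => (Multiset.card R.1 : ℝ)).sum) := by
  induction F using Multiset.induction_on with
  | empty => simp
  | cons R F ih =>
    have h1 := h R (Multiset.mem_cons_self R F)
    have h2 := ih fun R' hR' => h R' (Multiset.mem_cons_of_mem hR')
    rw [Multiset.map_cons, Multiset.sum_cons, Multiset.map_cons, Multiset.sum_cons,
      Multiset.map_cons, Multiset.sum_cons]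
    linarith

private theorem sum_lin (S : Multiset ℂ) (a b V : ℝ) (f g h : ℂ → ℝ)
    (hfg : ∀ β, V * f β = a * g β + b * h β) :
    V * (S.map f).sum = a * (S.map g).sum + b * (S.map h).sum := by
  induction S using Multiset.induction_on with
  | empty => simp
  | cons x S ih =>
    rw [Multiset.map_cons, Multiset.sum_cons, Multiset.map_cons, Multiset.sum_cons,
      Multiset.map_cons, Multiset.sum_cons, mul_add, ih, hfg]
    ring

private theorem sum_mono (S : Multiset ℂ) (f g : ℂ → ℝ) (h : ∀ β, f β ≤ g β) :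
    (S.map f).sum ≤ (S.map g).sum := by
  induction S using Multiset.induction_on with
  | empty => simp
  | cons x S ih =>
    rw [Multiset.map_cons, Multiset.sum_cons, Multiset.map_cons, Multiset.sum_cons]
    exact add_le_add (h x) ih

private theorem part (X0 : ℂ) (S : Multiset ℂ) (t s : ℝ) :
    (S.map fun β => min s (vv X0 β)).sum - ((S.filter fun β => vv X0 β < t).map (vv X0)).sum ≤
      ((S.filter fun β => t ≤ vv X0 β).map fun β => min s (vv X0 β)).sum := by
  have h1 : (S.filter fun β => t ≤ vv X0 β) + (S.filter fun β => ¬ t ≤ vv X0 β) = S :=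
    Multiset.filter_add_not _ _
  have h2 : (S.filter fun β => ¬ t ≤ vv X0 β) = (S.filter fun β => vv X0 β < t) := by
    apply Multiset.filter_congr
    intro x _
    exact not_le
  have h3 : (S.map fun β => min s (vv X0 β)).sum =
      ((S.filter fun β => t ≤ vv X0 β).map fun β => min s (vv X0 β)).sum +
      ((S.filter fun β => vv X0 β < t).map fun β => min s (vv X0 β)).sum := by
    conv_lhs => rw [← h1, Multiset.map_add, Multiset.sum_add, h2]
  have h4 := sum_mono (S.filter fun β => vv X0 β < t) (fun β => min s (vv X0 β)) (vv X0)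
    (fun β => min_le_right _ _)
  linarith

theorem pf_FIN (hPRF : T_PROF) (hSML : T_SML) (hKEYR : T_KEYR) (hNFIN : T_NFIN)
    (_hGIN : Pool.Agent.H25.EE.T_GIN) : T_FIN := by
  classical
  intro O X0 c hO hFR hc hFT
  obtain ⟨J0, hJ0⟩ := hFT (1 / 10 ^ 20) (by norm_num)
  obtain ⟨K, hK⟩ := hSML O X0 c (1 / 10 ^ 20) J0 hO hFR hc (by norm_num) (by norm_num) hJ0
  obtain ⟨Jk, hJk⟩ := hKEYR
  obtain ⟨Jn, hJn⟩ := hNFIN c K hc
  obtain ⟨m, hm⟩ : ∃ m : ℕ, m = J0 + Jk + Jn + 2 := ⟨_, rfl⟩
  have h2m : m < 2 ^ m := Nat.lt_two_pow_self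
  obtain ⟨J, hJ⟩ : ∃ J : ℕ, J = 100 * 2 ^ m := ⟨_, rfl⟩
  have hJJ0 : J ≥ J0 := by omega
  obtain ⟨D, hD1, hD2, hD3, hD4⟩ := hJ0 J hJJ0 X0 (by
    rw [sub_self, norm_zero]
    exact (Real.exp_pos _).le)
  have hDne : D ≠ 0 := by
    intro h0
    apply hD3
    rw [h0]
    simp [ev, toC]
  obtain ⟨F, hF1, hF2, hF3⟩ := hFR D hDne
  have hX0 : X0 ∉ rts D := by
    intro h
    unfold rts at h
    exact hD3 (Polynomial.isRoot_of_mem_roots h)
  have hplen : 0 < plen D := by
    unfold plen
    refine Finset.sum_pos (fun i hi => ?_) (Polynomial.support_nonempty.2 hDne)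
    rw [norm_pos_iff]
    intro h0
    apply Polynomial.mem_support_iff.1 hi
    exact Subtype.ext h0
  have hJpos : (0 : ℝ) < J := by
    have : 0 < J := by omega
    exact_mod_cast this
  have hlog : 0 < Real.log J := by
    apply Real.log_pos
    have : 1 < J := by omega
    exact_mod_cast this
  have hVpos : 0 < VJ J := by
    unfold VJ
    positivity
  have hbN : 0 ≤ bN J := by unfold bN; positivity
  have hbH : 0 ≤ bH J := by unfold bH; positivity
  -- upper bound
  have hup := sum_le F (8 / 1265625 * (J : ℝ) ^ 8 * Real.log J) (c * bN J) (bH J / c)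
    (fun R => ((R.1.filter fun β => thr (2 ^ m) ≤ vv X0 β).map
      fun β => GG (vv X0 β / VJ J)).sum) (by
      intro R hR
      obtain ⟨hR0, hRP⟩ := hF3 R hR
      refine hJk O X0 c hc J (by omega) (2 ^ m) (by omega) (by omega) ?_ R.1 R.2 hR0 hRP ?_
      · intro j hj _
        exact hJ0 j (by omega)
      · intro h0
        apply hX0
        rw [← hF1]
        exact mem_sum F hR h0)
  rw [← sum_filter, hF1, sum_card, hF1] at hup
  have hcard : (Multiset.card (rts D) : ℝ) ≤ D.natDegree := by
    have h1 : Multiset.card (rts D) ≤ D.natDegree :=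
      (Polynomial.card_roots' _).trans Polynomial.natDegree_map_le
    exact_mod_cast h1
  have hup2 : 101 / 100 * (c * bN J * (F.map Prod.snd).sum +
      bH J / c * (Multiset.card (rts D) : ℝ)) ≤ 101 / 100 * (2 * bN J * bH J) := by
    have h1 : (F.map Prod.snd).sum ≤ bH J / c := by
      refine hF2.trans ?_
      rw [Real.log_le_iff_le_exp hplen]
      exact hD2
    have h2 : (Multiset.card (rts D) : ℝ) ≤ c * bN J := hcard.trans hD1
    have h3 := mul_le_mul_of_nonneg_left h1 (show 0 ≤ c * bN J by positivity)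
    have h4 := mul_le_mul_of_nonneg_left h2 (show 0 ≤ bH J / c by positivity)
    have h5 : c * bN J * (bH J / c) = bN J * bH J := by
      field_simp
    have h6 : bH J / c * (c * bN J) = bN J * bH J := by
      field_simp
    rw [h5] at h3
    rw [h6] at h4
    linarith
  -- lower bounds
  have hsml := hK J m D (by omega) (by omega) hD3 hD1 hD2
  have hlow : ∀ s : ℝ, 0 ≤ s → phi (1 / 10 ^ 20) J s -
      D.natDegree * Real.log (8 * ((D.natDegree : ℝ) + 1)) -
      (K * (J : ℝ) ^ 6 + 3 / 20000 * ((2 ^ m : ℕ) : ℝ) ^ 2 * (J : ℝ) ^ 6 * Real.log J) ≤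
      (((rts D).filter fun β => thr (2 ^ m) ≤ vv X0 β).map fun β => min s (vv X0 β)).sum := by
    intro s hs
    have h1 := hPRF O X0 hO D D.natDegree s (phi (1 / 10 ^ 20) J s) le_rfl hs hD3
      (fun x hx => hD4 s hs x hx)
    have h2 := part X0 (rts D) (thr (2 ^ m)) s
    push_cast
    linarith
  have hlow1 := hlow (93 / 245 * VJ J) (by positivity)
  have hlow2 := hlow (147 / 155 * VJ J) (by positivity)
  have hGG := sum_lin ((rts D).filter fun β => thr (2 ^ m) ≤ vv X0 β) (49 / 100) (31 / 100) (VJ J)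
    (fun β => GG (vv X0 β / VJ J)) (fun β => min (93 / 245 * VJ J) (vv X0 β))
    (fun β => min (147 / 155 * VJ J) (vv X0 β)) (by
      intro β
      have key : ∀ s : ℝ, VJ J * min (vv X0 β / VJ J) s = min (s * VJ J) (vv X0 β) := by
        intro s
        rw [mul_min_of_nonneg _ _ hVpos.le, mul_div_cancel₀ _ hVpos.ne', min_comm, mul_comm s]
      simp only [GG]
      rw [mul_add, mul_left_comm, key, mul_left_comm, key])
  have hfin := hJn J (by omega) D.natDegree (2 ^ m) hD1 (by
    rw [hJ]
    push_cast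
    exact le_rfl)
  have hc' : 8 / 1265625 * (J : ℝ) ^ 8 * Real.log J = 2 / 1125 * (J : ℝ) ^ 4 * VJ J := by
    unfold VJ
    ring
  have hl4 : 0 < 2 / 1125 * (J : ℝ) ^ 4 := by positivity
  rw [hc', mul_assoc, hGG] at hup
  have h9 := mul_le_mul_of_nonneg_left hlow1 (show (0 : ℝ) ≤ 49 / 100 by norm_num)
  have h10 := mul_le_mul_of_nonneg_left hlow2 (show (0 : ℝ) ≤ 31 / 100 by norm_num)
  have h11 := mul_le_mul_of_nonneg_left (add_le_add h9 h10) hl4.le
  linarith

end Pool.Agent.H69.EI.FIN
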