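import Pool.Agent.H51.EI.TargetsB

/-! Row NUM of exi_modules (MP_58ae59_nt), adapted from row NUM of ee_modules: the final numerical
inequality. -/

set_option autoImplicit false

open Polynomial Finset

namespace Pool.Agent.H69.EI.NUM

open Pool.Agent.H51.EI

private theorem pow_exp {x : ℝ} (hx : 0 < x) (n : ℕ) :
    x ^ n = Real.exp ((n : ℝ) * Real.log x) := by
  rw [← Real.log_pow, Real.exp_log (pow_pos hx n)]

/-- one of the two symmetric blocks of factors -/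
private theorem block {x ρ M L b C2 : ℝ} {J k : ℕ} (hx : x = (J : ℝ)) (hx2 : 2 ≤ x) (hρ : 1 ≤ ρ)
    (hM : M = Real.log (2 * ρ)) (hL : L = Real.log x) (hb : b = (k : ℝ)) (hb0 : 0 ≤ b)
    (hb1 : b ≤ x ^ 4) :
    (2 * (ρ * (J : ℝ))) ^ k / Real.exp ((1 - 1 / 10000) * k * Real.log J) *
      (2 * (J : ℝ) ^ 2 * k * Real.exp (C2 * J * Real.log J)) ^ (J ^ 2) ≤
    Real.exp (b * M + 1 / 10000 * b * L + (10 * x ^ 2 * L + C2 * x ^ 3 * L)) := by
  have hx0 : 0 < x := by linarith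
  have hρ0 : 0 < ρ := by linarith
  have hL0 : 0 ≤ L := by
    rw [hL]
    exact Real.log_nonneg (by linarith)
  rw [← hx, ← hb, ← hL]
  have e1 : (2 * (ρ * x)) ^ k = Real.exp (b * (M + L)) := by
    rw [pow_exp (by positivity) k, hb, hM, hL, ← Real.log_mul (by positivity) (by positivity)]
    congr 2
    ring_nf
  have e2 : (2 * x ^ 2 * b * Real.exp (C2 * x * L)) ^ (J ^ 2) ≤
      Real.exp (10 * x ^ 2 * L + C2 * x ^ 3 * L) := by
    have h1 : 2 * x ^ 2 * b ≤ x ^ 10 := by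
      calc 2 * x ^ 2 * b ≤ (2 * x ^ 2) * x ^ 4 :=
            mul_le_mul_of_nonneg_left hb1 (by positivity)
        _ = 2 * x ^ 6 := by ring
        _ ≤ x * x ^ 6 := mul_le_mul_of_nonneg_right hx2 (by positivity)
        _ = x ^ 7 := by ring
        _ ≤ x ^ 10 := pow_le_pow_right₀ (by linarith) (by norm_num)
    calc (2 * x ^ 2 * b * Real.exp (C2 * x * L)) ^ (J ^ 2)
        ≤ (x ^ 10 * Real.exp (C2 * x * L)) ^ (J ^ 2) :=
          pow_le_pow_left₀ (by positivity)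
            (mul_le_mul_of_nonneg_right h1 (Real.exp_pos _).le) _
      _ = x ^ (10 * J ^ 2) * Real.exp (C2 * x * L) ^ (J ^ 2) := by rw [mul_pow, ← pow_mul]
      _ = Real.exp (((10 * J ^ 2 : ℕ) : ℝ) * Real.log x) *
            Real.exp (((J ^ 2 : ℕ) : ℝ) * (C2 * x * L)) := by
          rw [pow_exp hx0, Real.exp_nat_mul (C2 * x * L)]
      _ = Real.exp (10 * x ^ 2 * L + C2 * x ^ 3 * L) := by
          rw [← Real.exp_add, hL]
          push_cast
          rw [← hx]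
          congr 1
          ring
  rw [e1, div_eq_mul_inv, ← Real.exp_neg, ← Real.exp_add]
  calc Real.exp (b * (M + L) + -((1 - 1 / 10000) * b * L)) *
        (2 * x ^ 2 * b * Real.exp (C2 * x * L)) ^ (J ^ 2)
      ≤ Real.exp (b * (M + L) + -((1 - 1 / 10000) * b * L)) *
        Real.exp (10 * x ^ 2 * L + C2 * x ^ 3 * L) :=
        mul_le_mul_of_nonneg_left e2 (Real.exp_pos _).le
    _ = Real.exp (b * M + 1 / 10000 * b * L + (10 * x ^ 2 * L + C2 * x ^ 3 * L)) := by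
        rw [← Real.exp_add]
        congr 1
        ring

theorem pf_NUM : T_NUM := by
  intro ρ C1 C2 q hρ hC hC2 hq
  obtain ⟨M, hMdef⟩ : ∃ M, M = Real.log (2 * ρ) := ⟨_, rfl⟩
  have hM : 0 ≤ M := by
    rw [hMdef]
    exact Real.log_nonneg (by linarith)
  have hq1 : (1 : ℝ) ≤ q := by exact_mod_cast hq
  have hq0 : (0 : ℝ) < q := by linarith
  have h1 : ∀ᶠ J : ℕ in Filter.atTop, 4000000 * M + 1 ≤ Real.log (J : ℝ) :=
    (Real.tendsto_log_atTop.comp tendsto_natCast_atTop_atTop).eventually_ge_atTop _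
  have h2 : ∀ᶠ J : ℕ in Filter.atTop, 2000000 * (28 + C1 + 2 * C2) * q ≤ (J : ℝ) :=
    tendsto_natCast_atTop_atTop.eventually_ge_atTop _
  obtain ⟨J0, hJ0⟩ := Filter.eventually_atTop.mp (h1.and h2)
  refine ⟨J0, fun J hJ k k' hk1 hk2 hk3 hk4 => ?_⟩
  obtain ⟨hL1, hx1⟩ := hJ0 J hJ
  obtain ⟨x, hx⟩ : ∃ x : ℝ, x = (J : ℝ) := ⟨_, rfl⟩
  obtain ⟨L, hL⟩ : ∃ L : ℝ, L = Real.log x := ⟨_, rfl⟩
  obtain ⟨a, ha⟩ : ∃ a : ℝ, a = (k : ℝ) := ⟨_, rfl⟩
  obtain ⟨b, hb⟩ : ∃ b : ℝ, b = (k' : ℝ) := ⟨_, rfl⟩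
  rw [← hx] at hx1 hL1 hk1 hk3 hk4
  rw [← hL] at hL1
  rw [← ha] at hk1
  rw [← hb] at hk3 hk4
  have hbig : 2000000 * 28 * (q : ℝ) ≤ x := by
    have : 2000000 * 28 * (q : ℝ) ≤ 2000000 * (28 + C1 + 2 * C2) * q :=
      mul_le_mul_of_nonneg_right (by linarith) hq0.le
    linarith
  have hxq : (q : ℝ) ≤ x := by linarith
  have hx56 : (56000000 : ℝ) ≤ x := by linarith
  have hx2 : 2 ≤ x := by linarith
  have hx0 : 0 < x := by linarith
  have hLpos : 1 ≤ L := by linarith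
  have hx4 : 0 < x ^ 4 := by positivity
  obtain ⟨y, hy⟩ : ∃ y : ℝ, y = x ^ 4 / q := ⟨_, rfl⟩
  have hy0 : 0 < y := by
    rw [hy]
    positivity
  have hyx : y ≤ x ^ 4 := by
    rw [hy]
    exact div_le_self hx4.le hq1
  have hk1' : a ≤ 2 / 1125 * y := by
    rw [hy]
    calc a ≤ _ := hk1
      _ = _ := by ring
  have hk3' : 10009 / 10000 * (2 / 1125) * y ≤ b := by
    rw [hy]
    calc _ = 10009 / 10000 * (2 / 1125) * x ^ 4 / q := by ring
      _ ≤ b := hk3
  have hk4' : b ≤ 1001 / 1000 * (2 / 1125) * y := by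
    rw [hy]
    calc b ≤ _ := hk4
      _ = _ := by ring
  have hay : a ≤ y := by linarith
  have hby : b ≤ y := by linarith
  have ha1 : a ≤ x ^ 4 := by linarith
  have hb1 : b ≤ x ^ 4 := by linarith
  have ha0 : 0 ≤ a := by rw [ha]; positivity
  have hb0 : 0 ≤ b := by rw [hb]; positivity
  have B1 := block (C2 := C2) hx hx2 hρ hMdef hL hb hb0 hb1
  have B2 := block (C2 := C2) hx hx2 hρ hMdef hL ha ha0 ha1
  have e0 : (J : ℝ) ^ (2 * k) * ((k : ℝ) * k') ≤ Real.exp (2 * a * L + 8 * L) := by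
    rw [← hx, ← ha, ← hb]
    have h3 : x ^ (2 * k) = Real.exp (2 * a * L) := by
      rw [pow_exp hx0, hL, ha]
      push_cast
      ring_nf
    have h4 : a * b ≤ Real.exp (8 * L) := by
      have : Real.exp (8 * L) = x ^ 8 := by
        rw [pow_exp hx0, hL]
        norm_num
      rw [this]
      calc a * b ≤ x ^ 4 * x ^ 4 := mul_le_mul ha1 hb1 hb0 hx4.le
        _ = x ^ 8 := by ring
    rw [h3, Real.exp_add]
    exact mul_le_mul_of_nonneg_left h4 (Real.exp_pos _).le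
  -- the exponents
  have hx23 : x ^ 2 ≤ x ^ 3 := pow_le_pow_right₀ (by linarith) (by norm_num)
  have hxx : (28 + C1 + 2 * C2) * x ^ 3 * 2000000 ≤ y := by
    rw [hy, le_div_iff₀ hq0]
    calc (28 + C1 + 2 * C2) * x ^ 3 * 2000000 * q
        = x ^ 3 * (2000000 * (28 + C1 + 2 * C2) * q) := by ring
      _ ≤ x ^ 3 * x := mul_le_mul_of_nonneg_left hx1 (by positivity)
      _ = x ^ 4 := by ring
  have hone : (1000000 : ℝ) ≤ y := by
    have h3 : (1 : ℝ) ≤ x ^ 3 := one_le_pow₀ (by linarith)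
    have h4 : (28 : ℝ) * 1 ≤ (28 + C1 + 2 * C2) * x ^ 3 :=
      mul_le_mul (by linarith) h3 (by norm_num) (by linarith)
    linarith
  have key : (a + b) * M + ((28 + C1) * x ^ 2 * L + 2 * C2 * x ^ 3 * L) + 1 ≤
      2 / 1000000 * y * L := by
    have k1 : (a + b) * M ≤ 2 * y * M := mul_le_mul_of_nonneg_right (by linarith) hM
    have k2 : 2 * y * M ≤ 5 / 10000000 * y * L := by
      have : y * (4000000 * M) ≤ y * L := mul_le_mul_of_nonneg_left (by linarith) hy0.le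
      linarith
    have k3 : (28 + C1) * x ^ 2 * L + 2 * C2 * x ^ 3 * L ≤ 5 / 10000000 * y * L := by
      have k31 : (28 + C1) * x ^ 2 ≤ (28 + C1) * x ^ 3 :=
        mul_le_mul_of_nonneg_left hx23 (by linarith)
      have k32 : (28 + C1) * x ^ 2 + 2 * C2 * x ^ 3 ≤ 5 / 10000000 * y := by
        have : (28 + C1 + 2 * C2) * x ^ 3 = (28 + C1) * x ^ 3 + 2 * C2 * x ^ 3 := by ring
        linarith
      have := mul_le_mul_of_nonneg_right k32 (show 0 ≤ L by linarith)
      linarith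
    have k4 : 1 ≤ 1 / 1000000 * y * L := by
      have : (1000000 : ℝ) * 1 ≤ y * L := mul_le_mul hone hLpos (by norm_num) hy0.le
      linarith
    linarith
  have hx2L : 8 * L ≤ 8 * x ^ 2 * L := by
    have : (1 : ℝ) ≤ x ^ 2 := one_le_pow₀ (by linarith)
    have := mul_le_mul_of_nonneg_right this (show 0 ≤ L by linarith)
    linarith
  obtain ⟨E, hE⟩ : ∃ E : ℝ, E = 2 * a * L + 8 * L +
      (b * M + 1 / 10000 * b * L + (10 * x ^ 2 * L + C2 * x ^ 3 * L))
      + (a * M + 1 / 10000 * a * L + (10 * x ^ 2 * L + C2 * x ^ 3 * L)) + C1 * x ^ 2 * L :=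
    ⟨_, rfl⟩
  have hEle : E ≤ (2 * a + 1 / 10000 * (a + b)) * L +
      ((a + b) * M + ((28 + C1) * x ^ 2 * L + 2 * C2 * x ^ 3 * L)) := by
    rw [hE]
    linarith
  have hyL : 0 ≤ y * L := by positivity
  have T1 : E - thq q J ≤ -1 := by
    have ht : thq q J = 712 / 200000 * y * L := by
      rw [thq, hy, hL, hx]
      ring
    rw [ht]
    have : (2 * a + 1 / 10000 * (a + b)) * L ≤
        (2 * (2 / 1125) + 1 / 10000 * (2001 / 1000 * (2 / 1125))) * y * L := by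
      apply mul_le_mul_of_nonneg_right _ (by linarith)
      linarith
    linarith
  have T2 : E - (2 - 1 / 10000) * b * L ≤ -1 := by
    have : (2 * a + 1 / 10000 * (a + b)) * L - (2 - 1 / 10000) * b * L ≤
        -(2 / 1000000) * y * L := by
      have h5 : (2 * a + 1 / 10000 * (a + b)) * L - (2 - 1 / 10000) * b * L =
          (2 * a + 1 / 10000 * (a + b) - (2 - 1 / 10000) * b) * L := by ring
      rw [h5]
      apply mul_le_mul_of_nonneg_right _ (by linarith)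
      linarith
    linarith
  have hfin : Real.exp (2 * a * L + 8 * L) *
      Real.exp (b * M + 1 / 10000 * b * L + (10 * x ^ 2 * L + C2 * x ^ 3 * L)) *
      Real.exp (a * M + 1 / 10000 * a * L + (10 * x ^ 2 * L + C2 * x ^ 3 * L)) *
      (Real.exp (C1 * x ^ 2 * L) * (Real.exp (-(thq q J)) +
        Real.exp (-((2 - 1 / 10000) * b * L)))) < 1 := by
    have h6 : Real.exp (2 * a * L + 8 * L) *
      Real.exp (b * M + 1 / 10000 * b * L + (10 * x ^ 2 * L + C2 * x ^ 3 * L)) *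
      Real.exp (a * M + 1 / 10000 * a * L + (10 * x ^ 2 * L + C2 * x ^ 3 * L)) *
      (Real.exp (C1 * x ^ 2 * L) * (Real.exp (-(thq q J)) +
        Real.exp (-((2 - 1 / 10000) * b * L)))) =
      Real.exp (E - thq q J) + Real.exp (E - (2 - 1 / 10000) * b * L) := by
      rw [sub_eq_add_neg E, sub_eq_add_neg E, Real.exp_add E, Real.exp_add E, hE,
        Real.exp_add _ (C1 * x ^ 2 * L),
        Real.exp_add _ (a * M + 1 / 10000 * a * L + (10 * x ^ 2 * L + C2 * x ^ 3 * L)),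
        Real.exp_add _ (b * M + 1 / 10000 * b * L + (10 * x ^ 2 * L + C2 * x ^ 3 * L))]
      ring
    rw [h6]
    have h7 := Real.exp_le_exp.mpr T1
    have h8 := Real.exp_le_exp.mpr T2
    have h9 : Real.exp (-1) < 1 / 2 := by
      rw [Real.exp_neg, inv_lt_comm₀ (Real.exp_pos _) (by norm_num)]
      have := Real.exp_one_gt_d9
      norm_num
      linarith
    linarith
  refine lt_of_le_of_lt ?_ hfin
  have hlast : (Real.exp (C1 * (J : ℝ) ^ 2 * Real.log J) * (Real.exp (-(thq q J)) +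
      Real.exp (-((2 - 1 / 10000) * k' * Real.log J)))) =
      (Real.exp (C1 * x ^ 2 * L) * (Real.exp (-(thq q J)) +
        Real.exp (-((2 - 1 / 10000) * b * L)))) := by
    rw [hL, hx, hb]
  rw [hlast]
  apply mul_le_mul_of_nonneg_right _ (by positivity)
  have p0 : 0 ≤ (J : ℝ) ^ (2 * k) * ((k : ℝ) * k') := by positivity
  have p1 : 0 ≤ (2 * (ρ * (J : ℝ))) ^ k' / Real.exp ((1 - 1 / 10000) * k' * Real.log J) *
      (2 * (J : ℝ) ^ 2 * k' * Real.exp (C2 * J * Real.log J)) ^ (J ^ 2) := by positivity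
  have p2 : 0 ≤ (2 * (ρ * (J : ℝ))) ^ k / Real.exp ((1 - 1 / 10000) * k * Real.log J) *
      (2 * (J : ℝ) ^ 2 * k * Real.exp (C2 * J * Real.log J)) ^ (J ^ 2) := by positivity
  exact mul_le_mul (mul_le_mul e0 B1 p1 (Real.exp_pos _).le) B2 p2 (by positivity)

end Pool.Agent.H69.EI.NUM
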